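import Pool.Agent.Results.MP_09df17_pr.Counterexample

set_option autoImplicit false

namespace Pool.Agent.Results.MP_09df17_pr.PoissonBoundary

open Finset Filter Topology MeasureTheory
open Pool.Agent.Results.MP_09df17_pr.Counterexample

/-- `φ` is bounded. -/
def Bdd {K : Type} (φ : K → ℝ) : Prop := ∃ C, ∀ k, |φ k| ≤ C

/-- `h` is a bounded harmonic function (for simple random walk) of the locally finite graph `G`. -/
def IsBH {V : Type} (G : SimpleGraph V) [G.LocallyFinite] (h : V → ℝ) : Prop :=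
  Bdd h ∧ ∀ x, (G.degree x : ℝ) * h x = ∑ y ∈ G.neighborFinset x, h y

/-- `ℤ` acts freely by automorphisms of `G`. -/
def ActsFreely {V : Type} (G : SimpleGraph V) [AddAction ℤ V] : Prop :=
  (∀ (k : ℤ) (x y : V), G.Adj (k +ᵥ x) (k +ᵥ y) ↔ G.Adj x y) ∧
    ∀ (k : ℤ) (x : V), k +ᵥ x = x → k = 0

/-- Simple random walk on `G` exists, and from any starting vertex it almost surely visits every
translate of `D` infinitely often. -/
def VisitsAll {V : Type} (G : SimpleGraph V) [G.LocallyFinite] [AddAction ℤ V] (D : Set V) : Prop :=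
  (∀ x : V, ∃ (Ω : Type) (_ : MeasurableSpace Ω) (P : Measure Ω) (X : ℕ → Ω → V),
    IsSRW G x P X) ∧
  ∀ (x : V) (Ω : Type) (_ : MeasurableSpace Ω) (P : Measure Ω) (X : ℕ → Ω → V), IsSRW G x P X →
    ∀ᵐ ω ∂P, ∀ k : ℤ, ∃ᶠ n in atTop, ∃ y ∈ D, X n ω = k +ᵥ y

/-- The bounded harmonic functions of `G` are the bounded functions on `ℤ`: there is a map `B`
(boundary values) from the bounded harmonic functions to the bounded functions on `ℤ` which is
bijective, linear, preserves the supremum norm, positivity and constants, and carries the action of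
`ℤ` on `G` into the translations of `ℤ`. -/
def BoundaryIsZ {V : Type} (G : SimpleGraph V) [G.LocallyFinite] [AddAction ℤ V] : Prop :=
  ∃ B : (V → ℝ) → ℤ → ℝ,
    (∀ F, IsBH G F → Bdd (B F)) ∧
    (∀ φ : ℤ → ℝ, Bdd φ → ∃! F, IsBH G F ∧ B F = φ) ∧
    (∀ (a : ℝ) (F F' : V → ℝ), IsBH G F → IsBH G F' →
      B (fun v => a * F v + F' v) = fun k => a * B F k + B F' k) ∧
    (∀ (F : V → ℝ) (C : ℝ), IsBH G F → ((∀ v, |F v| ≤ C) ↔ ∀ k, |B F k| ≤ C)) ∧
    (∀ F : V → ℝ, IsBH G F → ((∀ v, 0 ≤ F v) ↔ ∀ k, 0 ≤ B F k)) ∧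
    (∀ (F : V → ℝ) (c : ℝ), IsBH G F → ((∀ v, F v = c) ↔ ∀ k, B F k = c)) ∧
    (∀ (F : V → ℝ) (j : ℤ), IsBH G F → B (fun v => F (j +ᵥ v)) = fun k => B F (j + k))

/-! ### Limits of iterates -/

theorem T_abs_le {F : V → ℝ} {C : ℝ} (h : ∀ v, |F v| ≤ C) (v : V) : |T F v| ≤ C := by
  refine (T_abs F v).trans ?_
  have h1 := T_mono (F := fun w => |F w|) (F' := fun _ => C) h v
  rwa [T_const] at h1

theorem TT_abs_le {F : V → ℝ} {C : ℝ} (h : ∀ v, |F v| ≤ C) (n : ℕ) : ∀ v, |TT n F v| ≤ C := by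
  induction n with
  | zero => exact h
  | succ n ih => intro v; rw [TT_succ]; exact T_abs_le ih v

section limit

variable {U : V → ℝ} {C : ℝ}

theorem U_step (hU : ∀ v, |T U v - U v| ≤ 2 * C * L v) (n : ℕ) :
    ∀ v, dist (TT n U v) (TT (n + 1) U v) ≤ 2 * C * TT n L v := by
  induction n with
  | zero =>
    intro v
    rw [Real.dist_eq, abs_sub_comm]
    exact hU v
  | succ n ih =>
    intro v
    rw [TT_succ (n + 1), TT_succ n U, TT_succ n L, Real.dist_eq, ← T_sub]
    refine (T_abs _ v).trans ?_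
    rw [← T_smul]
    refine T_mono (fun w => ?_) v
    have := ih w
    rw [Real.dist_eq, TT_succ] at this
    exact this

theorem lim_exists (hC : ∀ v, |U v| ≤ C) (hU : ∀ v, |T U v - U v| ≤ 2 * C * L v) :
    ∃ H : V → ℝ, (∀ v, Tendsto (fun n => TT n U v) atTop (𝓝 (H v))) ∧ (∀ v, T H v = H v) ∧
      (∀ v, |H v| ≤ C) ∧ ∀ v, |U v - H v| ≤ 2 * C * (12 / 5 * uu v) := by
  have hC0 : 0 ≤ C := (abs_nonneg _).trans (hC (0, 0))
  have hs : ∀ v, Summable (fun n => 2 * C * TT n L v) := fun v => (summable_L v).mul_left _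
  have hc : ∀ v, ∃ a, Tendsto (fun n => TT n U v) atTop (𝓝 a) := fun v =>
    cauchySeq_tendsto_of_complete
      (cauchySeq_of_dist_le_of_summable _ (fun n => U_step hU n v) (hs v))
  choose H hh using hc
  refine ⟨H, hh, fun v => ?_, fun v => ?_, fun v => ?_⟩
  · have h1 : Tendsto (fun n => TT (n + 1) U v) atTop (𝓝 (H v)) :=
      (tendsto_add_atTop_iff_nat 1).2 (hh v)
    have h2 : Tendsto (fun n => TT (n + 1) U v) atTop (𝓝 (T H v)) := by
      simp only [TT_succ]
      unfold T
      exact Tendsto.div_const (tendsto_finsetSum _ fun s _ => hh (nb s v)) _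
    exact tendsto_nhds_unique h2 h1
  · exact le_of_tendsto' (hh v).abs (fun n => TT_abs_le hC n v)
  · have := dist_le_tsum_of_dist_le_of_tendsto₀ _ (fun n => U_step hU n v) (hs v) (hh v)
    rw [Real.dist_eq] at this
    refine this.trans ?_
    rw [tsum_mul_left]
    exact mul_le_mul_of_nonneg_left (tsum_L v) (by linarith)

end limit

/-- Functions of the level. -/
theorem level_diff (φ : ℤ → ℝ) (C : ℝ) (hφ : ∀ k, |φ k| ≤ C) (v : V) :
    |T (fun w : V => φ w.2) v - φ v.2| ≤ 2 * C * L v := by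
  unfold L
  split_ifs with h
  · have h1 := T_abs_le (F := fun w : V => φ w.2) (C := C) (fun w => hφ w.2) v
    have h2 := hφ v.2
    rw [mul_one]
    refine (abs_sub _ _).trans ?_
    linarith
  · have : T (fun w : V => φ w.2) v = φ v.2 := by
      unfold T
      have h1 : ∀ s, φ (nb s v).2 = φ v.2 := by
        intro s
        unfold nb
        simp [h]
      simp [h1]
    rw [this]; simp

/-- Freezing the level. -/
theorem freeze_diff (F : V → ℝ) (C : ℝ) (hF : ∀ v, |F v| ≤ C) (hT : ∀ v, T F v = F v) (k : ℤ)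
    (v : V) : |T (fun w : V => F (w.1, k)) v - F (v.1, k)| ≤ 2 * C * L v := by
  unfold L
  split_ifs with h
  · have h1 := T_abs_le (F := fun w : V => F (w.1, k)) (C := C) (fun w => hF _) v
    have h2 := hF (v.1, k)
    rw [mul_one]
    refine (abs_sub _ _).trans ?_
    linarith
  · have : T (fun w : V => F (w.1, k)) v = F (v.1, k) := by
      rw [← hT (v.1, k)]
      unfold T
      congr 1
      apply sum_congr rfl
      intro s _
      unfold nb
      simp [h]
    rw [this]; simp

/-! ### Functions of the first coordinate -/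

theorem T_fst {F : V → ℝ} (h : ∀ v w : V, v.1 = w.1 → F v = F w) (v w : V) (hvw : v.1 = w.1) :
    T F v = T F w := by
  unfold T
  congr 1
  apply sum_congr rfl
  intro s _
  apply h
  show v.1 + st s = w.1 + st s
  rw [hvw]

theorem TT_fst {F : V → ℝ} (h : ∀ v w : V, v.1 = w.1 → F v = F w) (n : ℕ) :
    ∀ v w : V, v.1 = w.1 → TT n F v = TT n F w := by
  induction n with
  | zero => exact h
  | succ n ih =>
    intro v w hvw
    rw [TT_succ]
    exact T_fst ih v w hvw

theorem const_of_fst {H : V → ℝ} {C : ℝ} (hC : ∀ v, |H v| ≤ C) (hT : ∀ v, T H v = H v)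
    (hf : ∀ v w : V, v.1 = w.1 → H v = H w) : ∃ c, ∀ v, H v = c := by
  set F : W → ℝ := fun x => H (x, 0) with hF
  have hFh : ∀ x, (Fintype.card S : ℝ) * F x = ∑ s, F (x + st s) := by
    intro x
    have hcard : Fintype.card S = 12 := by simp
    rw [hcard]
    have h1 := hT (x, 0)
    unfold T at h1
    rw [div_eq_iff (by norm_num)] at h1
    have h2 : ∑ s, F (x + st s) = ∑ s, H (nb s ((x, 0) : V)) := by
      apply sum_congr rfl
      intro s _
      exact hf _ _ rfl
    rw [h2, h1]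
    push_cast
    ring
  have hinv : ∀ s x, F (x + st s) = F x := fun s x =>
    liouville_abelian st F C (fun x => hC _) hFh s x
  have hconst : ∀ n : ℕ, ∀ x, siz x = n → F x = F 0 := by
    intro n
    induction n using Nat.strong_induction_on with
    | _ n ih =>
      intro x hx
      by_cases h0 : x = 0
      · rw [h0]
      · have : ∃ i, x i ≠ 0 := by
          by_contra hno
          push Not at hno
          exact h0 (funext hno)
        obtain ⟨i, hi⟩ := this
        obtain ⟨b, hb⟩ := siz_dec x i hi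
        rw [← hinv (i, b) x]
        exact ih _ (by omega) _ rfl
  exact ⟨F 0, fun v => by rw [← hconst _ v.1 rfl]; exact hf _ _ rfl⟩

/-! ### Far away from the axis -/

/-- Points far away from the axis. -/
def xs (n : ℕ) : W := fun i => if i = 1 then (n : ℤ) else 0

theorem Q_xs (n : ℕ) : Q (xs n) = 1 + (n : ℝ) ^ 2 := by
  unfold Q xs
  rw [Fin.sum_univ_five]
  simp [Fin.ext_iff]

theorem uu_xs (k : ℤ) : Tendsto (fun n : ℕ => uu (xs n, k)) atTop (𝓝 0) := by
  have h1 : (fun n : ℕ => uu (xs n, k)) = fun n : ℕ => (1 + (n : ℝ) ^ 2)⁻¹ := by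
    funext n
    unfold uu
    rw [Q_xs]
  rw [h1]
  apply tendsto_inv_atTop_zero.comp
  apply tendsto_atTop_add_const_left
  exact (tendsto_pow_atTop (two_ne_zero)).comp tendsto_natCast_atTop_atTop

theorem uu_fst (v w : V) (h : v.1 = w.1) : uu v = uu w := by
  unfold uu; rw [h]

theorem TT_uu_anti (v : V) : Antitone (fun n => TT n uu v) := by
  apply antitone_nat_of_succ_le
  intro n
  have h1 : TT (n + 1) uu v = TT n (T uu) v := by
    unfold TT; rw [Function.iterate_succ_apply]
  rw [h1]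
  refine TT_mono n (fun w => ?_) v
  have h2 := T_uu w
  have h3 := L_nonneg w
  linarith

/-- The potential of the walk tends to zero. -/
theorem TT_uu_tendsto (v : V) : Tendsto (fun n => TT n uu v) atTop (𝓝 0) := by
  have hc : ∀ v, ∃ a, Tendsto (fun n => TT n uu v) atTop (𝓝 a) := fun v =>
    ⟨_, tendsto_atTop_ciInf (TT_uu_anti v) ⟨0, by rintro _ ⟨n, rfl⟩; exact TT_nonneg n uu_nonneg v⟩⟩
  choose H hh using hc
  have hH0 : ∀ v, 0 ≤ H v := fun v => ge_of_tendsto' (hh v) fun n => TT_nonneg n uu_nonneg v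
  have hHuu : ∀ v, H v ≤ uu v := fun v => (TT_uu_anti v).le_of_tendsto (hh v) 0
  have huu1 : ∀ v, uu v ≤ 1 := fun v => by
    unfold uu
    exact inv_le_one_of_one_le₀ (Q_pos v.1)
  have hT : ∀ v, T H v = H v := by
    intro v
    have h1 : Tendsto (fun n => TT (n + 1) uu v) atTop (𝓝 (H v)) :=
      (tendsto_add_atTop_iff_nat 1).2 (hh v)
    have h2 : Tendsto (fun n => TT (n + 1) uu v) atTop (𝓝 (T H v)) := by
      simp only [TT_succ]
      unfold T
      exact Tendsto.div_const (tendsto_finsetSum _ fun s _ => hh (nb s v)) _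
    exact tendsto_nhds_unique h2 h1
  have hf : ∀ v w : V, v.1 = w.1 → H v = H w := by
    intro v w hvw
    apply tendsto_nhds_unique (hh v)
    have h1 : (fun n => TT n uu v) = fun n => TT n uu w := by
      funext n
      exact TT_fst uu_fst n v w hvw
    rw [h1]
    exact hh w
  obtain ⟨c, hc⟩ := const_of_fst (C := 1)
    (fun v => by rw [abs_of_nonneg (hH0 v)]; exact (hHuu v).trans (huu1 v)) hT hf
  have hc0 : c = 0 := by
    apply le_antisymm
    · refine ge_of_tendsto' (uu_xs 0) (fun n => ?_)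
      rw [← hc (xs n, 0)]
      exact hHuu _
    · rw [← hc v]; exact hH0 v
  rw [← hc0, ← hc v]
  exact hh v

theorem uu_bound_zero {F : V → ℝ} {A : ℝ} (hT : ∀ v, T F v = F v)
    (hA : ∀ v, |F v| ≤ A * uu v) (v : V) : F v = 0 := by
  have hTT : ∀ n, TT n F = F := by
    intro n
    induction n with
    | zero => rfl
    | succ n ih => rw [TT_succ, ih]; exact funext hT
  have h1 : ∀ n, ∀ v, |TT n F v| ≤ A * TT n uu v := by
    intro n
    induction n with
    | zero => exact hA
    | succ n ih =>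
      intro v
      rw [TT_succ, TT_succ, ← T_smul]
      exact (T_abs _ v).trans (T_mono ih v)
  have h2 : Tendsto (fun n => A * TT n uu v) atTop (𝓝 (A * 0)) := (TT_uu_tendsto v).const_mul A
  rw [mul_zero] at h2
  have h3 : |F v| ≤ 0 := ge_of_tendsto' h2 (fun n => by
    have := h1 n v
    rwa [hTT n] at this)
  exact abs_eq_zero.1 (le_antisymm h3 (abs_nonneg _))

/-! ### The boundary values -/

theorem harm_iff (F : V → ℝ) : (∀ v, T F v = F v) ↔
    ∀ v, (G.degree v : ℝ) * F v = ∑ w ∈ G.neighborFinset v, F w := by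
  apply forall_congr'
  intro v
  rw [sum_nbr, degree_eq]
  unfold T
  rw [div_eq_iff (by norm_num)]
  constructor
  · intro h; rw [h]; push_cast; ring
  · intro h; rw [← h]; push_cast; ring

/-- Bounded harmonic functions have a boundary value on every level. -/
theorem exists_bv {F : V → ℝ} {C : ℝ} (hC : ∀ v, |F v| ≤ C) (hT : ∀ v, T F v = F v) :
    ∃ c : ℤ → ℝ, (∀ k, |c k| ≤ C) ∧ ∀ v, |F v - c v.2| ≤ 2 * C * (12 / 5 * uu v) := by
  have h1 : ∀ k : ℤ, ∃ c : ℝ, |c| ≤ C ∧
      ∀ v : V, |F (v.1, k) - c| ≤ 2 * C * (12 / 5 * uu v) := by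
    intro k
    obtain ⟨H, h1, h2, h3, h4⟩ := lim_exists (U := fun w : V => F (w.1, k)) (C := C)
      (fun w => hC _) (freeze_diff F C hC hT k)
    have hf : ∀ v w : V, v.1 = w.1 → H v = H w := by
      intro v w hvw
      apply tendsto_nhds_unique (h1 v)
      have h5 : (fun n => TT n (fun w : V => F (w.1, k)) v)
          = fun n => TT n (fun w : V => F (w.1, k)) w := by
        funext n
        exact TT_fst (fun v w hvw => by rw [hvw]) n v w hvw
      rw [h5]
      exact h1 w
    obtain ⟨c, hc⟩ := const_of_fst h3 h2 hf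
    exact ⟨c, by rw [← hc (0, 0)]; exact h3 _, fun v => by rw [← hc v]; exact h4 v⟩
  choose c hc1 hc2 using h1
  exact ⟨c, hc1, fun v => hc2 v.2 v⟩

/-- The boundary value of a function on the level `k`. -/
noncomputable def bv (F : V → ℝ) (k : ℤ) : ℝ := limUnder atTop (fun n : ℕ => F (xs n, k))

theorem tendsto_of_close {F : V → ℝ} {A : ℝ} {c : ℤ → ℝ}
    (h : ∀ v, |F v - c v.2| ≤ A * uu v) (k : ℤ) :
    Tendsto (fun n : ℕ => F (xs n, k)) atTop (𝓝 (c k)) := by
  rw [tendsto_iff_dist_tendsto_zero]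
  have h2 : Tendsto (fun n : ℕ => A * uu (xs n, k)) atTop (𝓝 0) := by
    have := (uu_xs k).const_mul A
    rwa [mul_zero] at this
  refine squeeze_zero (fun n => dist_nonneg) (fun n => ?_) h2
  rw [Real.dist_eq]
  exact h (xs n, k)

theorem bv_eq {F : V → ℝ} {A : ℝ} {c : ℤ → ℝ}
    (h : ∀ v, |F v - c v.2| ≤ A * uu v) (k : ℤ) : bv F k = c k :=
  (tendsto_of_close h k).limUnder_eq

theorem bv_spec {F : V → ℝ} {C : ℝ} (hC : ∀ v, |F v| ≤ C) (hT : ∀ v, T F v = F v) :
    (∀ v, |F v - bv F v.2| ≤ 2 * C * (12 / 5) * uu v) ∧ (∀ k, |bv F k| ≤ C) ∧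
      ∀ k, Tendsto (fun n : ℕ => F (xs n, k)) atTop (𝓝 (bv F k)) := by
  obtain ⟨c, hc1, hc2⟩ := exists_bv hC hT
  have h2 : ∀ v, |F v - c v.2| ≤ 2 * C * (12 / 5) * uu v := fun v => by
    rw [mul_assoc (2 * C)]; exact hc2 v
  have h3 : bv F = c := funext (bv_eq h2)
  rw [h3]
  exact ⟨h2, hc1, tendsto_of_close h2⟩

/-- Existence of a bounded harmonic function with given boundary values. -/
theorem exists_ext (φ : ℤ → ℝ) (C : ℝ) (hφ : ∀ k, |φ k| ≤ C) :
    ∃ F : V → ℝ, (∀ v, |F v| ≤ C) ∧ (∀ v, T F v = F v) ∧ bv F = φ ∧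
      ((∀ k, 0 ≤ φ k) → ∀ v, 0 ≤ F v) := by
  obtain ⟨H, h1, h2, h3, h4⟩ := lim_exists (U := fun w : V => φ w.2) (C := C)
    (fun w => hφ _) (level_diff φ C hφ)
  refine ⟨H, h3, h2, funext (fun k => ?_), fun hpos v => ?_⟩
  · refine bv_eq (A := 2 * C * (12 / 5)) (fun v => ?_) k
    rw [abs_sub_comm, mul_assoc (2 * C)]
    exact h4 v
  · exact ge_of_tendsto' (h1 v) (fun n => TT_nonneg n (fun w => hpos w.2) v)

theorem bv_inj {F F' : V → ℝ} {C C' : ℝ} (hC : ∀ v, |F v| ≤ C) (hT : ∀ v, T F v = F v)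
    (hC' : ∀ v, |F' v| ≤ C') (hT' : ∀ v, T F' v = F' v) (h : bv F = bv F') : F = F' := by
  funext v
  have h1 := (bv_spec hC hT).1
  have h2 := (bv_spec hC' hT').1
  have h3 : ∀ v, |F v - F' v| ≤ (2 * C * (12 / 5) + 2 * C' * (12 / 5)) * uu v := by
    intro v
    have e : F v - F' v = (F v - bv F v.2) - (F' v - bv F' v.2) := by rw [h]; ring
    rw [e, add_mul]
    exact (abs_sub _ _).trans (add_le_add (h1 v) (h2 v))
  have h4 := uu_bound_zero (F := fun v => F v - F' v) (fun v => by rw [T_sub, hT, hT']) h3 v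
  linarith

theorem shift_harm {F : V → ℝ} (j : ℤ) (hT : ∀ v, T F v = F v) (v : V) :
    T (fun v : V => F (v.1, j + v.2)) v = F (v.1, j + v.2) := by
  rw [← hT (v.1, j + v.2)]
  unfold T
  congr 1
  apply sum_congr rfl
  intro s _
  rw [nb_act]

theorem boundary : @BoundaryIsZ V G _ act := by
  refine ⟨bv, ?_, ?_, ?_, ?_, ?_, ?_, ?_⟩
  · rintro F ⟨⟨C, hC⟩, hF⟩
    exact ⟨C, (bv_spec hC ((harm_iff _).2 hF)).2.1⟩
  · rintro φ ⟨C, hφ⟩
    obtain ⟨F, h1, h2, h3, _⟩ := exists_ext φ C hφ
    refine ⟨F, ⟨⟨⟨C, h1⟩, (harm_iff F).1 h2⟩, h3⟩, ?_⟩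
    rintro F' ⟨⟨⟨C', hC'⟩, hF'⟩, h4⟩
    exact bv_inj hC' ((harm_iff _).2 hF') h1 h2 (h4.trans h3.symm)
  · rintro a F F' ⟨⟨C, hC⟩, hF⟩ ⟨⟨C', hC'⟩, hF'⟩
    funext k
    have h1 := (bv_spec hC ((harm_iff _).2 hF)).2.2 k
    have h2 := (bv_spec hC' ((harm_iff _).2 hF')).2.2 k
    exact ((h1.const_mul a).add h2).limUnder_eq
  · rintro F C ⟨⟨C0, hC0⟩, hF⟩
    have hT := (harm_iff _).2 hF
    constructor
    · intro h
      exact (bv_spec h hT).2.1
    · intro h
      obtain ⟨F', h1, h2, h3, _⟩ := exists_ext (bv F) C h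
      have h4 := bv_inj h1 h2 hC0 hT h3
      rw [← h4]
      exact h1
  · rintro F ⟨⟨C0, hC0⟩, hF⟩
    have hT := (harm_iff _).2 hF
    constructor
    · intro h k
      exact ge_of_tendsto' ((bv_spec hC0 hT).2.2 k) (fun n => h _)
    · intro h
      obtain ⟨F', h1, h2, h3, h5⟩ := exists_ext (bv F) C0 (bv_spec hC0 hT).2.1
      have h4 := bv_inj h1 h2 hC0 hT h3
      rw [← h4]
      exact h5 h
  · rintro F c ⟨⟨C0, hC0⟩, hF⟩
    have hT := (harm_iff _).2 hF
    have hc : bv (fun _ : V => c) = fun _ => c :=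
      funext (fun k => bv_eq (A := 0) (c := fun _ => c) (fun v => by simp) k)
    constructor
    · intro h k
      have e : F = fun _ => c := funext h
      rw [e, hc]
    · intro h
      have h4 := bv_inj hC0 hT (C' := |c|) (F' := fun _ : V => c) (fun _ => le_refl _)
        (fun v => T_const c v) (by rw [hc]; exact funext h)
      intro v
      rw [h4]
  · rintro F j ⟨⟨C0, hC0⟩, hF⟩
    have hT := (harm_iff _).2 hF
    funext k
    exact ((bv_spec hC0 hT).2.2 (j + k)).limUnder_eq

/-- There is a connected 12-regular graph `G` with a free action of `ℤ` by automorphisms and a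
connected fundamental domain `D` such that the quotient is Liouville, simple random walk on `G`,
from any starting vertex, almost surely visits every translate `k + D` infinitely often, and yet
the space of bounded harmonic functions on `G` is infinite dimensional: it is exactly the space of
bounded functions on `ℤ`, by an isomorphism which preserves the supremum norm, positivity and
constants and which carries the action of `ℤ` on `G` into the translations of `ℤ`. -/
theorem result : ∃ (V : Type) (G : SimpleGraph V) (_ : G.LocallyFinite) (_ : AddAction ℤ V)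
    (D : Set V),
    G.Connected ∧ (∀ x, G.degree x = 12) ∧ ActsFreely G ∧ QuotientLiouville G ∧
    IsFundamentalDomain D ∧ (G.induce D).Connected ∧ VisitsAll G D ∧ ¬ Liouville G ∧
    BoundaryIsZ G := by
  classical
  refine ⟨V, G, inferInstance, act, D, G_connected, degree_eq, ⟨?_, ?_⟩, quotient_liouville,
    fund_domain, D_connected, ⟨?_, ?_⟩, ?_, boundary⟩
  · intro k v w
    show G.Adj (v.1, k + v.2) (w.1, k + w.2) ↔ G.Adj v w
    rw [adj_iff, adj_iff]
    refine exists_congr fun s => ?_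
    rw [nb_act]
    constructor
    · intro h
      rw [Prod.mk.injEq] at h
      exact Prod.ext h.1 (add_left_cancel h.2)
    · intro h; rw [h]
  · intro k v h
    have h1 : (v.1, k + v.2) = v := h
    have h2 := congrArg Prod.snd h1
    simp only at h2
    omega
  · exact fun x => ⟨_, _, _, _, exists_srw x⟩
  · intro x Ω _ P X hX
    filter_upwards [srw_hits x P X hX] with ω hω k
    refine (hω k).mono fun n hn => ?_
    refine ⟨((X n ω).1, (X n ω).1 0), rfl, ?_⟩
    show X n ω = ((X n ω).1, k + (X n ω).1 0)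
    refine Prod.ext rfl ?_
    simp only [zz] at hn
    simp only
    omega
  · intro hL
    obtain ⟨h, h1, h2, v, w, h3⟩ := not_liouville
    exact h3 (hL h ⟨1, h1⟩ h2 v w)

end Pool.Agent.Results.MP_09df17_pr.PoissonBoundary
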